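import Pool.Agent.Helper11.SG.AsmZ
import Pool.Agent.Helper62.SGB.EPHI

/-!
# Project SG, part 2: assembly of Theorem P2 (`PTWO`)
-/

set_option autoImplicit false

open MvPolynomial

namespace Pool.Agent.Helper11.SG

open WeierstrassCurve Height Height.AdmissibleAbsValues
open Pool.Agent.Helper29.BL Pool.Agent.Helper92.Ru Pool.Agent.Helper42.SG
open Pool.Agent.Helper66.SG (sp3 sp4 pt)

noncomputable section

variable {K : Type} [Field K]

/-- the two curves -/
def WW (W₁ W₂ : Affine K) : ℕ → Affine K := fun i => if i = 0 then W₁ else W₂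

/-- the four coordinates -/
def four (a b c d : K) : ℕ → K := fun h => if h = 0 then a else if h = 1 then b
  else if h = 2 then c else d

lemma mapW_K (W : ℕ → Affine K) (i : ℕ) : mapW K W i = W i := by
  unfold mapW
  rw [Algebra.algebraMap_self]
  exact WeierstrassCurve.map_id _

lemma lawV_four (W₁ W₂ : Affine K) (e : ℕ) (l : Bool) (a b c d a' b' c' d' : K) :
    lawV (mapW K (WW W₁ W₂)) 1 (fun _ => e) (fun _ => l) (four a b c d) (four a' b' c' d') 0 =
      law W₁ e l a c (a' * c') ∧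
    lawV (mapW K (WW W₁ W₂)) 1 (fun _ => e) (fun _ => l) (four a b c d) (four a' b' c' d') 1 =
      law W₂ e l b d (b' * d') := by
  constructor <;> simp [lawV, mapW_K, WW, four]

/-- nonvanishing of `Q` at the fixed point `x_0` -/
lemma sp4_ne_zero {M e : ℕ} {c : Idx 1 M 1 (fun _ => e) → K} (hc : c ≠ 0)
    (Q : MvPolynomial (Fin (2 * 1 + 2)) K) (ξ : ℕ → K)
    (h : ∀ ξ0 : Fin 2 → K, (∃ α, ∑ β : Fin 2 → Fin 1, c (α, β) * ∏ i : Fin 2, ξ0 i ^ (β i).val ≠ 0) →
      ∃ y : ℕ → AlgebraicClosure K, (∀ i : Fin 2, y (2 * 1 + i.val) =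
        algebraMap K (AlgebraicClosure K) (ξ0 i)) ∧ aeval (fun h => y h.val) Q ≠ 0) :
    aeval (sp4 ξ) Q ≠ 0 := by
  intro hQ
  obtain ⟨y, hy1, hy2⟩ := h (fun i => ξ (2 + i.val)) (by
    obtain ⟨⟨α, β⟩, hαβ⟩ : ∃ α, c α ≠ 0 := Function.ne_iff.1 hc
    refine ⟨α, ?_⟩
    rw [Fintype.sum_unique]
    have hb : (default : Fin 2 → Fin 1) = β := Subsingleton.elim _ _
    rw [hb]
    have hp : ∏ i : Fin 2, ξ (2 + i.val) ^ (β i).val = 1 := by
      apply Finset.prod_eq_one
      intro i _
      have : (β i).val = 0 := by omega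
      rw [this, pow_zero]
    rw [hp, mul_one]
    exact hαβ)
  apply hy2
  have h2 : aeval (fun h : Fin (2 * 1 + 2) => y h.val) Q =
      aeval (fun i : Fin 2 => y i.val) (aeval (sp4 ξ) Q) := by
    have h3 : (aeval (fun h : Fin (2 * 1 + 2) => y h.val) : MvPolynomial _ K →ₐ[K] _) =
        (aeval (fun i : Fin 2 => y i.val) : MvPolynomial _ K →ₐ[K] _).comp (aeval (sp4 ξ)) := by
      apply MvPolynomial.algHom_ext
      intro i
      rw [AlgHom.comp_apply, aeval_X, aeval_X]
      have h20 := hy1 0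
      have h21 := hy1 1
      fin_cases i
      · simp [sp4]
      · simp [sp4]
      · simpa [sp4, algebraMap_eq] using h20
      · simpa [sp4, algebraMap_eq] using h21
    rw [h3]
    rfl
  rw [h2, hQ, map_zero]

end

end Pool.Agent.Helper11.SG
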