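import Pool.Agent.Helper11.SG.AsmP2

/-!
# Project SG, part 2: assembly of Theorem P2 (`PTWO`)
-/

set_option autoImplicit false

open MvPolynomial

namespace Pool.Agent.Helper11.SG

open WeierstrassCurve Height Height.AdmissibleAbsValues
open Pool.Agent.Helper29.BL Pool.Agent.Helper92.Ru Pool.Agent.Helper42.SG
open Pool.Agent.Helper66.SG (sp3 sp4 pt)

noncomputable section

/-- the global inequality for a minimal non-zero coefficient -/
theorem glob_ineq (hLAWCG : LAWCG) (hLOCEG : LOCEG) (hELAW : ELAW) (hELOC : ELOC)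
    (hGLOB2 : GLOB2) (hCVAL : Pool.Agent.Helper92.SGE.CVAL)
    (K : Type) [Field K] [NumberField K] [DecidableEq K] (W₁ W₂ : Affine K)
    [W₁.IsElliptic] [W₂.IsElliptic] (M k0 : ℕ) (B B1 : AbsoluteValue K ℝ → ℝ)
    (hB : PlC B) (hB1 : PlC B1) :
    ∃ C : ℝ, 0 ≤ C ∧ ∀ (e : ℕ) (f : MvPolynomial (Fin 2) K) (c : Idx 1 M 1 (fun _ => e) → K)
      (A : ℝ) (P₁ Q₁ : W₁.Point) (P₂ Q₂ : W₂.Point)
      (X Ψ : ℕ → MvPowerSeries (Fin 2) K) (α : Fin 2 →₀ ℕ),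
      0 ≤ A → (∀ α, IsIntegral ℤ (c α)) → (∀ α, NumberField.house (c α) ≤ Real.exp A) →
      KEYG (WW W₁ W₂) 1 M 1 k0 f (fun _ => e) c B →
      P₁ ≠ 0 → Q₁ ≠ 0 → (2 ^ e) • P₁ + Q₁ ≠ 0 → P₂ ≠ 0 → Q₂ ≠ 0 → (2 ^ e) • P₂ + Q₂ ≠ 0 →
      eval (pt (xc Q₁) (xc Q₂)) f = 0 →
      TayZ (WW W₁ W₂) (four (xc P₁) (xc P₂) (xc Q₁) (xc Q₂))
        (four (ps P₁) (ps P₂) (ps Q₁) (ps Q₂)) X Ψ →
      (∀ (v : AbsoluteValue K ℝ), ∀ h < 4,
          NPS v (fun i : Fin 2 => 1 / (B1 v * Mv v (four (xc P₁) (xc P₂) (xc Q₁) (xc Q₂) i.val) ^ 2))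
            (X h) (B1 v * Mv v (four (xc P₁) (xc P₂) (xc Q₁) (xc Q₂) h)) ∧
          NPS v (fun i : Fin 2 => 1 / (B1 v * Mv v (four (xc P₁) (xc P₂) (xc Q₁) (xc Q₂) i.val) ^ 2))
            (Ψ h) (B1 v * Mv v (four (xc P₁) (xc P₂) (xc Q₁) (xc Q₂) h) ^ 2)) →
      MvPowerSeries.coeff α (Paux (mapW _ (WW W₁ W₂)) 1 M 1 (fun _ => e)
        (fun α => algebraMap K (MvPowerSeries (Fin 2) K) (c α)) (fun _ => false) X Ψ) ≠ 0 →
      (∀ β : Fin 2 →₀ ℕ, wt (fun _ => 1) β < wt (fun _ => 1) α →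
        MvPowerSeries.coeff β (Paux (mapW _ (WW W₁ W₂)) 1 M 1 (fun _ => e)
          (fun α => algebraMap K (MvPowerSeries (Fin 2) K) (c α)) (fun _ => false) X Ψ) = 0) →
      ((k0 : ℝ) * 4 ^ e) *
          PS (fun v => min (Real.posLog (v (xc P₁))) (Real.posLog (v (xc P₂)))) ≤
        C * (4 ^ e + A) +
          ((M * hx ((2 ^ e) • P₁ - Q₁) + (4 : ℝ) ^ e * hx P₁) +
            (M * hx ((2 ^ e) • P₂ - Q₂) + (4 : ℝ) ^ e * hx P₂)) +
          (hx Q₁ + hx Q₂) +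
          ((α 0 : ℝ) * (C + 2 * hx P₁) + (α 1 : ℝ) * (C + 2 * hx P₂)) := by
  obtain ⟨B21, hB21, hloc1⟩ := hELOC K W₁
  obtain ⟨B22, hB22, hloc2⟩ := hELOC K W₂
  have hB2 : PlC (fun v => B21 v * B22 v) := Pool.Agent.Helper62.SGB.plc_mul hB21 hB22
  obtain ⟨Bt, hBt, hloc⟩ := hLOCEG K (WW W₁ W₂) 1 M 1 k0 B B1 (fun v => B21 v * B22 v)
    (le_refl 1) hB hB1 hB2
  obtain ⟨C, hC, hglob⟩ := hGLOB2 K M k0 Bt B1 hBt hB1
  refine ⟨C, hC, ?_⟩
  intro e f c A P₁ Q₁ P₂ Q₂ X Ψ α hA hint hhouse hKEY hP1 hQ1 hPQ1 hP2 hQ2 hPQ2 hf hT hTn hα hmin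
  set ξ : ℕ → K := four (xc P₁) (xc P₂) (xc Q₁) (xc Q₂) with hξ
  set ψ : ℕ → K := four (ps P₁) (ps P₂) (ps Q₁) (ps Q₂) with hψ
  set δ : K := MvPowerSeries.coeff α (Paux (mapW _ (WW W₁ W₂)) 1 M 1 (fun _ => e)
        (fun α => algebraMap K (MvPowerSeries (Fin 2) K) (c α)) (fun _ => false) X Ψ) with hδ
  obtain ⟨la1, lb1, lc1, ld1, le1⟩ := hELAW K W₁ P₁ Q₁ e (by exact two_ne_zero) hP1 hQ1 hPQ1
  obtain ⟨la2, lb2, lc2, ld2, le2⟩ := hELAW K W₂ P₂ Q₂ e (by exact two_ne_zero) hP2 hQ2 hPQ2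
  have hl0 : ∀ l : Bool, lawV (mapW K (WW W₁ W₂)) 1 (fun _ => e) (fun _ => l) ξ ψ 0 =
      law W₁ e l (xc P₁) (xc Q₁) (ps P₁ * ps Q₁) := fun l => (lawV_four W₁ W₂ e l _ _ _ _ _ _ _ _).1
  have hl1 : ∀ l : Bool, lawV (mapW K (WW W₁ W₂)) 1 (fun _ => e) (fun _ => l) ξ ψ 1 =
      law W₂ e l (xc P₂) (xc Q₂) (ps P₂ * ps Q₂) := fun l => (lawV_four W₁ W₂ e l _ _ _ _ _ _ _ _).2
  set ω : ℕ → K := fun h => if h = 0 then xc ((2 ^ e) • P₁ + Q₁) else xc ((2 ^ e) • P₂ + Q₂)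
    with hω
  have two : ∀ (p : ℕ → Prop), p 0 → p 1 → ∀ h < 2 * 1, p h := by
    intro p h0 h1 h hh
    have : h = 0 ∨ h = 1 := by omega
    rcases this with rfl | rfl
    · exact h0
    · exact h1
  -- constant terms
  have hcst : ∀ h < 2 * 1 + 2, MvPowerSeries.constantCoeff (X h) = ξ h ∧
      MvPowerSeries.constantCoeff (Ψ h) = ψ h := by
    intro h hh
    by_cases h2 : h < 2
    · have h3 := hT.eqX ⟨h, h2⟩
      have h4 := hT.cst ⟨h, h2⟩
      simp only at h3 h4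
      refine ⟨?_, h4⟩
      rw [h3]
      simp
    · obtain ⟨i, rfl⟩ : ∃ i, h = 2 + i := ⟨h - 2, by omega⟩
      have hi : i < 2 := by omega
      rw [hT.cX i hi, hT.cP i hi]
      simp
  have hlaw : ∀ lam : ℕ → Bool, MvPowerSeries.coeff α (Paux (mapW _ (WW W₁ W₂)) 1 M 1
        (fun _ => e) (fun α => algebraMap K (MvPowerSeries (Fin 2) K) (c α)) lam X Ψ) =
        (∏ h ∈ Finset.range (2 * 1), if lam h then ω h ^ M else 1) * δ := by
    intro lam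
    refine hLAWCG K (WW W₁ W₂) 1 M 1 (fun _ => e) c ξ ψ ω (Fin 2) X Ψ (fun _ => 1) α lam hT.onW
      hcst (fun _ => le_refl 1) ?_ ?_ hmin
    · apply two
      · rw [hl0]; exact la1
      · rw [hl1]; exact la2
    · apply two
      · rw [hl0, hl0]
        simp only [hω, if_true]
        exact ⟨ld1, le1⟩
      · rw [hl1, hl1]
        simp only [hω, one_ne_zero, if_false]
        exact ⟨ld2, le2⟩
  have hfz : aeval (fun i : Fin 2 => X (2 * 1 + i.val)) f = 0 := by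
    have h0 : (aeval (fun i : Fin 2 => X (2 * 1 + i.val)) f : MvPowerSeries (Fin 2) K) =
        algebraMap K (MvPowerSeries (Fin 2) K) (eval (pt (xc Q₁) (xc Q₂)) f) := by
      rw [← MvPolynomial.aeval_eq_eval, ← MvPolynomial.aeval_algebraMap_apply]
      congr 2
      funext i
      fin_cases i
      · have := hT.cX 0 (by norm_num)
        simpa [hξ, four, pt, MvPowerSeries.algebraMap_apply] using this
      · have := hT.cX 1 (by norm_num)
        simpa [hξ, four, pt, MvPowerSeries.algebraMap_apply] using this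
    rw [h0, hf, map_zero]
  have hlocal : ∀ v : AbsoluteValue K ℝ, (v ∈ archAbsVal (K := K) ∨ v ∈ nonarchAbsVal (K := K)) →
      v δ ≤ cst v (Real.exp A) * Bt v ^ (4 ^ e) *
        (∏ h ∈ Finset.range 2, (max (v (lawV (mapW K (WW W₁ W₂)) 1 (fun _ => e)
          (fun _ => false) ξ ψ h).1) (v (lawV (mapW K (WW W₁ W₂)) 1 (fun _ => e)
          (fun _ => false) ξ ψ h).2)) ^ M * Mv v (ξ h) ^ (4 ^ e)) /
        (min (Mv v (ξ 0)) (Mv v (ξ 1))) ^ (k0 * 4 ^ e) *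
        (Mv v (ξ 2) * Mv v (ξ 3)) * ∏ i : Fin 2, (B1 v * Mv v (ξ i.val) ^ 2) ^ (α i) := by
    intro v hv
    have hr : ∀ i : Fin 2, 0 < 1 / (B1 v * Mv v (ξ i.val) ^ 2) := by
      intro i
      have h1 := hB1.one_le v
      have h2 : 1 ≤ Mv v (ξ i.val) := le_max_left _ _
      positivity
    have h := hloc f (fun _ => e) c ξ ψ ω (Fin 2) X Ψ α δ v
      (fun i : Fin 2 => 1 / (B1 v * Mv v (ξ i.val) ^ 2)) (cst v (Real.exp A)) hKEY hT.onW
      (fun α => hCVAL K (c α) A hA (hint α) (hhouse α) v hv) hr hfz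
      (fun h hh => hTn v h (by omega)) ?_ hlaw
    · have hsq : Pool.Agent.Helper42.SG.sq 1 (fun _ => e) = 4 ^ e := by
        simp [Pool.Agent.Helper42.SG.sq]
      rw [hsq] at h
      simpa only [mul_one, Finset.range_one, Finset.prod_singleton, mul_zero, zero_add, pow_one,
        one_div, inv_inv] using h
    · apply two
      · rw [hl0]
        have h1 := hloc1 v P₁ Q₁ e hP1 hQ1 hPQ1
        have h2 := hB22.one_le v
        have h3 := hB21.one_le v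
        refine h1.trans ?_
        have h4 : B21 v ^ (4 ^ e) ≤ (B21 v * B22 v) ^ (4 ^ e) :=
          pow_le_pow_left₀ (by linarith) (le_mul_of_one_le_right (by linarith) h2) _
        have h5 : 0 ≤ max (v (law W₁ e false (xc P₁) (xc Q₁) (ps P₁ * ps Q₁)).1)
          (v (law W₁ e false (xc P₁) (xc Q₁) (ps P₁ * ps Q₁)).2) :=
            le_trans (v.nonneg _) (le_max_left _ _)
        have h6 : 0 ≤ Mv v (xc ((2 ^ e) • P₁ + Q₁)) := le_trans zero_le_one (le_max_left _ _)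
        simp only [hω, if_true]
        gcongr
      · rw [hl1]
        have h1 := hloc2 v P₂ Q₂ e hP2 hQ2 hPQ2
        have h2 := hB22.one_le v
        have h3 := hB21.one_le v
        refine h1.trans ?_
        have h4 : B22 v ^ (4 ^ e) ≤ (B21 v * B22 v) ^ (4 ^ e) :=
          pow_le_pow_left₀ (by linarith) (le_mul_of_one_le_left (by linarith) h3) _
        have h5 : 0 ≤ max (v (law W₂ e false (xc P₂) (xc Q₂) (ps P₂ * ps Q₂)).1)
          (v (law W₂ e false (xc P₂) (xc Q₂) (ps P₂ * ps Q₂)).2) :=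
            le_trans (v.nonneg _) (le_max_left _ _)
        have h6 : 0 ≤ Mv v (xc ((2 ^ e) • P₂ + Q₂)) := le_trans zero_le_one (le_max_left _ _)
        simp only [hω, one_ne_zero, if_false]
        gcongr
  have hw : ∀ h < 2, ((lawV (mapW K (WW W₁ W₂)) 1 (fun _ => e) (fun _ => false) ξ ψ h).1 ≠ 0 ∨
        (lawV (mapW K (WW W₁ W₂)) 1 (fun _ => e) (fun _ => false) ξ ψ h).2 ≠ 0) ∧
      ((lawV (mapW K (WW W₁ W₂)) 1 (fun _ => e) (fun _ => false) ξ ψ h).1 ≠ 0 →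
        (lawV (mapW K (WW W₁ W₂)) 1 (fun _ => e) (fun _ => false) ξ ψ h).2 =
        (fun h : ℕ => if h = 0 then xc ((2 ^ e) • P₁ - Q₁) else xc ((2 ^ e) • P₂ - Q₂)) h *
          (lawV (mapW K (WW W₁ W₂)) 1 (fun _ => e) (fun _ => false) ξ ψ h).1) ∧
      ((lawV (mapW K (WW W₁ W₂)) 1 (fun _ => e) (fun _ => false) ξ ψ h).1 = 0 →
        (fun h : ℕ => if h = 0 then xc ((2 ^ e) • P₁ - Q₁) else xc ((2 ^ e) • P₂ - Q₂)) h = 0) := by
    have key : ∀ h < 2 * 1, ((lawV (mapW K (WW W₁ W₂)) 1 (fun _ => e) (fun _ => false) ξ ψ h).1 ≠ 0 ∨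
        (lawV (mapW K (WW W₁ W₂)) 1 (fun _ => e) (fun _ => false) ξ ψ h).2 ≠ 0) ∧
      ((lawV (mapW K (WW W₁ W₂)) 1 (fun _ => e) (fun _ => false) ξ ψ h).1 ≠ 0 →
        (lawV (mapW K (WW W₁ W₂)) 1 (fun _ => e) (fun _ => false) ξ ψ h).2 =
        (fun h : ℕ => if h = 0 then xc ((2 ^ e) • P₁ - Q₁) else xc ((2 ^ e) • P₂ - Q₂)) h *
          (lawV (mapW K (WW W₁ W₂)) 1 (fun _ => e) (fun _ => false) ξ ψ h).1) ∧
      ((lawV (mapW K (WW W₁ W₂)) 1 (fun _ => e) (fun _ => false) ξ ψ h).1 = 0 →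
        (fun h : ℕ => if h = 0 then xc ((2 ^ e) • P₁ - Q₁) else xc ((2 ^ e) • P₂ - Q₂)) h = 0) := by
      apply two
      · rw [hl0]
        refine ⟨la1, fun h => ?_, fun h => ?_⟩
        · simp only [if_true]
          by_cases h0 : (2 ^ e) • P₁ - Q₁ = 0
          · exact absurd (lc1 h0) h
          · exact (lb1 h0).2
        · simp only [if_true]
          by_cases h0 : (2 ^ e) • P₁ - Q₁ = 0
          · rw [h0]; rfl
          · exact absurd h (lb1 h0).1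
      · rw [hl1]
        refine ⟨la2, fun h => ?_, fun h => ?_⟩
        · simp only [one_ne_zero, if_false]
          by_cases h0 : (2 ^ e) • P₂ - Q₂ = 0
          · exact absurd (lc2 h0) h
          · exact (lb2 h0).2
        · simp only [one_ne_zero, if_false]
          by_cases h0 : (2 ^ e) • P₂ - Q₂ = 0
          · rw [h0]; rfl
          · exact absurd h (lb2 h0).1
    intro h hh
    exact key h (by omega)
  have hfin := hglob e ξ
    (fun h => (lawV (mapW K (WW W₁ W₂)) 1 (fun _ => e) (fun _ => false) ξ ψ h).1)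
    (fun h => (lawV (mapW K (WW W₁ W₂)) 1 (fun _ => e) (fun _ => false) ξ ψ h).2)
    (fun h : ℕ => if h = 0 then xc ((2 ^ e) • P₁ - Q₁) else xc ((2 ^ e) • P₂ - Q₂))
    α δ A hα hA hw hlocal
  rw [Finset.sum_range_succ, Finset.sum_range_one, Fin.sum_univ_two] at hfin
  simpa [hξ, four, hx] using hfin

end

end Pool.Agent.Helper11.SG
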