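import Pool.Agent.Helper11.SG.AsmP3

/-!
# Project SG, part 2: Theorem P2 (`PTWO`)
-/

set_option autoImplicit false

open MvPolynomial

namespace Pool.Agent.Helper11.SG

open WeierstrassCurve Height Height.AdmissibleAbsValues
open Pool.Agent.Helper29.BL Pool.Agent.Helper92.Ru Pool.Agent.Helper42.SG
open Pool.Agent.Helper66.SG (sp3 sp4 pt)

noncomputable section

lemma pt_pair {K : Type} (x y : K) : (fun e : Fin 2 => if e = 0 then x else y) = pt x y := rfl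

/-- **Theorem P2**. -/
theorem ptwo_of (hAUXC : Pool.Agent.Helper77.SGC.AUXC) (hNQ : NQ)
    (hRESF : Pool.Agent.Helper66.SG.RESF) (hIXR : Pool.Agent.Helper66.SG.IXR)
    (hZER : Pool.Agent.Helper66.SG.ZER) (hTAYZ : TAYZ) (hQIX2 : QIX2)
    (hMINA : Pool.Agent.Helper92.SGE.MINA) (hLAWCG : LAWCG) (hLOCEG : LOCEG) (hELAW : ELAW)
    (hELOC : ELOC) (hEUP : EUP) (hGLOB2 : GLOB2) (hCVAL : Pool.Agent.Helper92.SGE.CVAL)
    (hNUM2 : NUM2) (hGEO2 : GEO2) (hDEG1 : DEG1) : PTWO := by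
  intro K _ _ _ W₁ W₂ _ _ H₁ H₂ c₀ ε CI D hH₁ hH₂ hε
  classical
  -- parameters
  have hc₀ : 0 ≤ c₀ := le_trans (abs_nonneg _) (hH₁.near 0)
  obtain ⟨k0, hk0⟩ : ∃ x : ℕ, x = ⌈10 / ε⌉₊ + 1 := ⟨_, rfl⟩
  have hk01 : 1 ≤ k0 := by omega
  have hεk : 10 ≤ ε * k0 := by
    have h1 : 10 / ε ≤ (k0 : ℝ) := by
      rw [hk0]; push_cast
      exact (Nat.le_ceil _).trans (by linarith)
    rw [div_le_iff₀ hε] at h1
    linarith
  obtain ⟨Dd, hDd⟩ : ∃ x : ℕ, x = D + 1 := ⟨_, rfl⟩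
  obtain ⟨M, hM⟩ : ∃ x : ℕ, x = 128 * Dd * k0 ^ 2 := ⟨_, rfl⟩
  have hDd1 : 1 ≤ Dd := by omega
  have hk2 : 1 ≤ k0 ^ 2 := Nat.one_le_pow _ _ hk01
  have hDM : Dd ≤ M := by
    rw [hM]
    nlinarith
  have hM1 : 1 ≤ M := hDd1.trans hDM
  have hMR : (1 : ℝ) ≤ M := by exact_mod_cast hM1
  obtain ⟨CA, B, hB, hCA, haux⟩ := hAUXC K (WW W₁ W₂) Dd M k0 hk01 hM.ge
  have hell : ∀ i, (WW W₁ W₂ i).IsElliptic := by
    intro i
    unfold WW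
    split_ifs
    · infer_instance
    · infer_instance
  obtain ⟨CQ, hCQ, hQ⟩ := hNQ K (WW W₁ W₂) hell 1 M 1 (le_refl 1) hM1 (le_refl 1)
  obtain ⟨B1, hB1, htay⟩ := hTAYZ K (WW W₁ W₂)
  obtain ⟨CG, hCG, hglob⟩ := glob_ineq hLAWCG hLOCEG hELAW hELOC hGLOB2 hCVAL K W₁ W₂ M k0 B B1
    hB hB1
  obtain ⟨CI', hCI'⟩ : ∃ x : ℝ, x = max CI 0 := ⟨_, rfl⟩
  have hCI'0 : 0 ≤ CI' := by rw [hCI']; exact le_max_right _ _
  obtain ⟨C1, hC1⟩ : ∃ x : ℝ, x = CA * (1 + 2 * CI') := ⟨_, rfl⟩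
  have hC10 : 0 ≤ C1 := by rw [hC1]; positivity
  obtain ⟨K2, hK2, hnum⟩ := hNUM2 M c₀ CG C1 hc₀ hCG hC10
  obtain ⟨N, hN⟩ : ∃ x : ℕ, x = 4 * (2 * M + 1) := ⟨_, rfl⟩
  obtain ⟨C2, hC2⟩ : ∃ x : ℝ, x = 2 * CI' + CQ * (1 + C1) := ⟨_, rfl⟩
  have hC20 : 0 ≤ C2 := by rw [hC2]; positivity
  obtain ⟨D', C', hC', L, hL, hzer⟩ := zer_comb hRESF hIXR hZER K Dd N C2 hDd1 (by omega)
    (by omega) hC20
  have hθ₀ : (0 : ℝ) < 1 / M := by positivity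
  obtain ⟨θ, K0, hθ, hθ1, hK0, hgeo⟩ := hGEO2 K W₁ W₂ H₁ H₂ c₀ ε
    (max (max L K2) (max ((2 * L + 1) / ε) ((4 * CI' + 1) / ε))) (1 / M) hH₁ hH₂ hε hθ₀
  refine ⟨D', C', θ, K0, hθ, ?_⟩
  intro z x₀ e hz1 hz2 hz3 hz4 hz5 hlow
  obtain ⟨⟨hz0, hz0', hx0, hx0'⟩, ⟨hps1, hps2⟩, ⟨hpl1, hpl2⟩, ⟨hh0, hh1⟩, ⟨hh2, hh3⟩,
    ⟨ht1, ht2⟩, hLe, hLz⟩ := hgeo z x₀ e hz1 hz2 hz3 hz4 hz5
  by_contra hnot
  set y : ℝ := nrm H₁ H₂ z with hy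
  set t : ℝ := nrm H₁ H₂ x₀ with ht
  have hy0 : 0 < y := lt_of_lt_of_le hK0 hz1
  have h4e : (1 : ℝ) ≤ 4 ^ e := one_le_pow₀ (by norm_num)
  have h4e0 : (0 : ℝ) < 4 ^ e := by positivity
  have hq1 : 1 ≤ 4 ^ e := Nat.one_le_pow _ _ (by norm_num)
  obtain ⟨f, hfirr, hfdeg, hfe, hfPH⟩ := hlow
  rw [pt_pair] at hfe
  have hfPH2 : Real.log (PH f) ≤ 2 * CI' * 4 ^ e := by
    refine hfPH.trans ?_
    have h1 : t / y ≤ 2 * 4 ^ e := by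
      rw [div_le_iff₀ hy0]
      linarith
    have h0 : 0 ≤ t / y := by
      apply div_nonneg _ hy0.le
      nlinarith
    calc CI * (t / y) ≤ CI' * (t / y) := mul_le_mul_of_nonneg_right (by rw [hCI']; exact le_max_left _ _) h0
      _ ≤ CI' * (2 * 4 ^ e) := mul_le_mul_of_nonneg_left h1 hCI'0
      _ = 2 * CI' * 4 ^ e := by ring
  have hLL : L ≤ 4 ^ e := (le_max_left _ _).trans ((le_max_left _ _).trans hLe)
  have hyK2 : K2 ≤ y := (le_max_right _ _).trans ((le_max_left _ _).trans hLz)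
  have hyL : 2 * L + 1 ≤ ε * y := by
    have h1 : (2 * L + 1) / ε ≤ y := (le_max_left _ _).trans ((le_max_right _ _).trans hLz)
    rw [div_le_iff₀ hε] at h1
    linarith
  have hyC : 4 * CI' + 1 ≤ ε * y := by
    have h1 : (4 * CI' + 1) / ε ≤ y := (le_max_right _ _).trans ((le_max_right _ _).trans hLz)
    rw [div_le_iff₀ hε] at h1
    linarith
  have hx2 : ε * (4 ^ e * y) ≤ 2 * hx x₀.1 := by
    have : ε * (4 ^ e * y) ≤ ε * (2 * t) := mul_le_mul_of_nonneg_left ht2 hε.le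
    nlinarith
  -- the curve through `x₀` involves the second variable
  have hf1 : 1 ≤ f.degreeOf 1 := by
    by_contra h
    have h0 : f.degreeOf 1 = 0 := by omega
    have h1 : hx x₀.1 ≤ Real.log (PH f) := hDEG1 K f _ _ hfirr h0 hfe
    nlinarith
  have hfD : ∀ i, f.degreeOf i ≤ Dd := fun i => (hfdeg i).trans (by omega)
  -- the auxiliary function
  obtain ⟨c, hc0, hcint, hchouse, hKEYC⟩ := haux e f hfirr.ne_zero hfD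
  set A : ℝ := CA * (4 ^ e + Real.log (PH f)) with hA
  have hA0 : 0 ≤ A := by
    rw [hA]
    have := log_PH_nonneg' f
    positivity
  have hA1 : A ≤ C1 * 4 ^ e := by
    rw [hA, hC1, mul_assoc]
    apply mul_le_mul_of_nonneg_left _ hCA
    linarith
  have hKEYG := keyc_toG hB.one_le hKEYC
  obtain ⟨Q, hQ0, hQdeg, hQPH, hQnz, hQdvd⟩ := hQ (fun _ => e) c A hc0 hA0 hcint hchouse
  have hsq : Pool.Agent.Helper42.SG.sq 1 (fun _ => e) = 4 ^ e := by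
    simp [Pool.Agent.Helper42.SG.sq]
  rw [hsq] at hQPH
  set ξ : ℕ → K := four (xc z.1) (xc z.2) (xc x₀.1) (xc x₀.2) with hξ
  set ψ : ℕ → K := four (ps z.1) (ps z.2) (ps x₀.1) (ps x₀.2) with hψ
  have hQsp : aeval (sp4 ξ) Q ≠ 0 := sp4_ne_zero hc0 Q ξ hQnz
  have hQdeg2 : ∀ h : Fin 4, Q.degreeOf h ≤ if h.val < 2 then N * 4 ^ e else N := by
    intro h
    refine (hQdeg h).trans ?_
    unfold ddM
    rw [hN]
    by_cases h2 : h.val < 2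
    · rw [if_pos (by omega), if_pos h2]
      rw [pow_one]
      exact le_of_eq (by ring)
    · rw [if_neg (by omega), if_neg h2]
      exact le_of_eq (by ring)
  have hPHsum : Real.log (PH f) + Real.log (PH Q) ≤ C2 * ((4 ^ e : ℕ) : ℝ) := by
    push_cast at hQPH ⊢
    have h1 : CQ * ((4 : ℝ) ^ e + A) ≤ CQ * (4 ^ e + C1 * 4 ^ e) :=
      mul_le_mul_of_nonneg_left (by linarith) hCQ
    rw [hC2]
    nlinarith
  have hxi0 : logHeight₁ (ξ 0) = hx z.1 := rfl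
  have hxi1 : logHeight₁ (ξ 1) = hx z.2 := rfl
  have hxi2 : logHeight₁ (ξ 2) = hx x₀.1 := rfl
  rcases hzer (4 ^ e) f Q ξ hq1 hfirr hfD hf1 hfe hQdeg2 hQsp hPHsum
    (by push_cast; exact hLL) (by rw [hxi0]; linarith) (by rw [hxi1]; linarith)
    (by rw [hxi2]; push_cast; nlinarith) with hgl | ⟨p, β, hpdvd, hpβ, hβq⟩
  · obtain ⟨g, hg1, hg2, hg3, hg4⟩ := hgl
    exact hnot ⟨g, hg1, hg2, by rw [pt_pair]; exact hg3, hg4⟩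
  -- Taylor expansion
  have hψB : ∀ h < 4, ψ h ^ 2 = Bf (WW W₁ W₂ (h % 2)) (ξ h) := by
    intro h hh
    have hE1 := (hEUP K W₁).1
    have hE2 := (hEUP K W₂).1
    have : h = 0 ∨ h = 1 ∨ h = 2 ∨ h = 3 := by omega
    rcases this with rfl | rfl | rfl | rfl
    · simpa [hψ, hξ, four, WW] using hE1 z.1 hz0
    · simpa [hψ, hξ, four, WW] using hE2 z.2 hz0'
    · simpa [hψ, hξ, four, WW] using hE1 x₀.1 hx0
    · simpa [hψ, hξ, four, WW] using hE2 x₀.2 hx0'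
  have hψ0 : ψ 0 ≠ 0 := hps1
  have hψ1 : ψ 1 ≠ 0 := hps2
  obtain ⟨X, Ψ, hT, hTn⟩ := htay ξ ψ hψB hψ0 hψ1
  obtain ⟨g, hg⟩ := hQdvd (MvPowerSeries (Fin 2) K) X Ψ hT.onW
  obtain ⟨α0, hα0, hα0c⟩ := hQIX2 K (WW W₁ W₂) ξ ψ X Ψ Q p _ g β hT hψ0 hψ1 hg hpdvd hpβ
  have hwt : ∀ γ : Fin 2 →₀ ℕ, wt (fun _ : Fin 2 => 1) γ = (γ 0 : ℝ) + γ 1 := by
    intro γ
    simp [wt, Fin.sum_univ_two]
  obtain ⟨α, hα1, hα2, hα3⟩ := hMINA K (Fin 2) (fun _ => 1) _ ((4 : ℝ) ^ e) (fun _ => le_refl 1)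
    (fun hall => hα0c (hall α0 (by
      rw [hwt]
      have h0 := hα0 0
      have h1 := hα0 1
      have h3 : ((α0 0 + α0 1 : ℕ) : ℝ) < ((4 ^ e : ℕ) : ℝ) := by
        exact_mod_cast (show α0 0 + α0 1 < 4 ^ e by omega)
      push_cast at h3
      exact h3)))
  rw [hwt] at hα1
  have hineq := hglob e f c A z.1 x₀.1 z.2 x₀.2 X Ψ α hA0 hcint hchouse hKEYG hz0 hx0 hpl1 hz0'
    hx0' hpl2 hfe hT hTn hα2 hα3
  -- the numbers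
  have hn1 : hx z.1 + hx z.2 ≤ y + 2 * c₀ := by
    have h1 := abs_le.1 (hH₁.near z.1)
    have h2 := abs_le.1 (hH₂.near z.2)
    rw [hy]
    unfold nrm
    linarith [h1.1, h2.1]
  have hn2 : hx x₀.1 + hx x₀.2 ≤ t + 2 * c₀ := by
    have h1 := abs_le.1 (hH₁.near x₀.1)
    have h2 := abs_le.1 (hH₂.near x₀.2)
    rw [ht]
    unfold nrm
    linarith [h1.1, h2.1]
  have hn3 : hx ((2 ^ e) • z.1 - x₀.1) + hx ((2 ^ e) • z.2 - x₀.2) ≤ θ ^ 2 * t + 2 * c₀ := by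
    have h1 := abs_le.1 (hH₁.near ((2 ^ e) • z.1 - x₀.1))
    have h2 := abs_le.1 (hH₂.near ((2 ^ e) • z.2 - x₀.2))
    have h3 : H₁ ((2 ^ e) • z.1 - x₀.1) + H₂ ((2 ^ e) • z.2 - x₀.2) ≤ θ ^ 2 * t := hz3
    linarith [h1.1, h2.1]
  have hMθ : (M : ℝ) * θ ^ 2 ≤ 1 := by
    have h1 : θ ^ 2 ≤ (1 / (M : ℝ)) ^ 2 := pow_le_pow_left₀ hθ.le hθ1 2
    have h2 : (M : ℝ) * (1 / (M : ℝ)) ^ 2 = 1 / M := by
      field_simp
    have h3 : (1 : ℝ) / M ≤ 1 := by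
      rw [div_le_one (by linarith)]
      exact hMR
    calc (M : ℝ) * θ ^ 2 ≤ M * (1 / (M : ℝ)) ^ 2 := mul_le_mul_of_nonneg_left h1 (by linarith)
      _ ≤ 1 := by rw [h2]; exact h3
  have hgg : gg z = PS (fun v => min (Real.posLog (v (xc z.1))) (Real.posLog (v (xc z.2)))) := rfl
  rw [← hgg] at hineq
  refine hnum k0 e ε θ y t (gg z) (hx z.1) (hx z.2) (hx x₀.1) (hx x₀.2)
    (hx ((2 ^ e) • z.1 - x₀.1)) (hx ((2 ^ e) • z.2 - x₀.2)) (α 0) (α 1) A hε hεk hMθ hyK2 ht1 hz4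
    (zero_le_logHeight₁ _) (zero_le_logHeight₁ _) hn1 hn2 hn3 (by positivity) (by positivity)
    hα1.le hA1 ?_
  exact hineq

end

end Pool.Agent.Helper11.SG
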