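import Pool.Agent.Helper11.SG.Goals2

/-!
# Project SG, part 2: conversion of the key inequality, the combined zero estimate
-/

set_option autoImplicit false

open MvPolynomial

namespace Pool.Agent.Helper11.SG

open WeierstrassCurve Height Height.AdmissibleAbsValues
open Pool.Agent.Helper29.BL Pool.Agent.Helper92.Ru Pool.Agent.Helper42.SG
open Pool.Agent.Helper66.SG (sp3 sp4 pt)

noncomputable section

/-- `PH p ≥ 1` -/
lemma one_le_PH' {K : Type} [Field K] [NumberField K] {σ : Type} (p : MvPolynomial σ K) :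
    1 ≤ PH p := one_le_mulHeight _

lemma log_PH_nonneg' {K : Type} [Field K] [NumberField K] {σ : Type} (p : MvPolynomial σ K) :
    0 ≤ Real.log (PH p) := Real.log_nonneg (one_le_PH' p)

/-- the key inequality of part 2 in the general form -/
theorem keyc_toG {K : Type} [Field K] {W : ℕ → Affine K} {M k0 e : ℕ}
    {f : MvPolynomial (Fin 2) K} {c : Idx 1 M 1 (fun _ => e) → K} {B : AbsoluteValue K ℝ → ℝ}
    (hB : ∀ v, 1 ≤ B v)
    (h : Pool.Agent.Helper77.SGC.KEYC W M k0 e f c B) : KEYG W 1 M 1 k0 f (fun _ => e) c B := by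
  intro v A _ _ N hN X Ψ a s b h1 h2 h3 h4 h5 h6 h7 lam
  have hs0 : 0 ≤ s := le_trans (v.nonneg _) (h6 ⟨fun _ => ⟨⟨0, by positivity⟩, 0⟩, fun _ => 0⟩)
  have hf : (fun i : Fin 2 => X (2 * 1 + i.val)) = Pool.Agent.Helper77.SGC.pr (X 2) (X 3) := by
    funext i
    fin_cases i <;> simp [Pool.Agent.Helper77.SGC.pr]
  have h7' : aeval (Pool.Agent.Helper77.SGC.pr (X 2) (X 3)) f = 0 := by rw [← hf]; exact h7
  have h8 := h v A N hN X Ψ a s b h1 h7' (fun i hi => h2 i (by omega)) h3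
    (fun i hi => h4 i (by omega)) (fun i hi => h5 i (by omega)) h6 lam
  refine hN.mono _ _ _ h8 ?_
  have ha : ∀ i < 4, 1 ≤ a i := fun i hi => h2 i (by omega)
  have h23 : 1 ≤ a 2 * a 3 :=
    one_le_mul_of_one_le_of_one_le (ha 2 (by norm_num)) (ha 3 (by norm_num))
  have hmin : 0 < min (a 0) (a 1) :=
    lt_of_lt_of_le one_pos (le_min (ha 0 (by norm_num)) (ha 1 (by norm_num)))
  have hk : Pool.Agent.Helper77.SGC.keyC M k0 e a ≤ keyBG 1 M 1 k0 (fun _ => e) a := by
    unfold Pool.Agent.Helper77.SGC.keyC keyBG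
    simp only [Finset.range_one, Finset.prod_singleton, mul_zero, zero_add, mul_one, pow_one]
    norm_num
    have h0 : 0 ≤ (a 0 * a 1) ^ (2 * 4 ^ e * M + 4 ^ e) * (a 2 * a 3) ^ (2 * M) /
        min (a 0) (a 1) ^ (k0 * 4 ^ e) := by
      have := ha 0 (by norm_num)
      have := ha 1 (by norm_num)
      positivity
    exact le_mul_of_one_le_right h0 h23
  have hsq : sq 1 (fun _ => e) = 4 ^ e := by simp [Pool.Agent.Helper42.SG.sq]
  rw [hsq]
  have h9 : 0 ≤ s * b ^ (4 * 1) * B v ^ (4 ^ e) := by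
    have := hB v
    positivity
  calc s * b ^ 4 * B v ^ 4 ^ e * Pool.Agent.Helper77.SGC.keyC M k0 e a
      = s * b ^ (4 * 1) * B v ^ (4 ^ e) * Pool.Agent.Helper77.SGC.keyC M k0 e a := by norm_num
    _ ≤ _ := mul_le_mul_of_nonneg_left hk h9

/-- the zero estimate of part 2 -/
theorem zer_comb (hR : Pool.Agent.Helper66.SG.RESF) (hI : Pool.Agent.Helper66.SG.IXR)
    (hZ : Pool.Agent.Helper66.SG.ZER) (K : Type) [Field K] [NumberField K] (D N : ℕ) (C₁ : ℝ)
    (hD : 1 ≤ D) (hN : 1 ≤ N) (hDN : D ≤ N) (hC₁ : 0 ≤ C₁) :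
    ∃ (D' : ℕ) (C' : ℝ), 0 ≤ C' ∧ ∃ L : ℝ, 0 ≤ L ∧
    ∀ (q : ℕ) (f : MvPolynomial (Fin 2) K) (Q : MvPolynomial (Fin 4) K) (ξ : ℕ → K), 1 ≤ q →
      Irreducible f → (∀ i, f.degreeOf i ≤ D) → 1 ≤ f.degreeOf 1 → eval (pt (ξ 2) (ξ 3)) f = 0 →
      (∀ h : Fin 4, Q.degreeOf h ≤ if h.val < 2 then N * q else N) → aeval (sp4 ξ) Q ≠ 0 →
      Real.log (PH f) + Real.log (PH Q) ≤ C₁ * q → L ≤ q → L < logHeight₁ (ξ 0) →
      L < logHeight₁ (ξ 1) → L * q < logHeight₁ (ξ 2) →
      (∃ g : MvPolynomial (Fin 2) K, Irreducible g ∧ (∀ i, g.degreeOf i ≤ D') ∧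
        eval (pt (ξ 0) (ξ 1)) g = 0 ∧ Real.log (PH g) ≤ C') ∨
      ∃ (p : MvPolynomial (Fin 2) K) (β : Fin 2 →₀ ℕ), aeval (sp4 ξ) Q ∣ p ∧
        coeff β (shiftP (fun i : Fin 2 => ξ i.val) p) ≠ 0 ∧ β 0 + β 1 < q := by
  obtain ⟨CR, hCR, hres⟩ := hR K D N
  set d0 : ℕ := 2 * D * N with hd0
  have hd0' : 1 ≤ d0 := by
    have : 1 ≤ D * N := Nat.mul_pos hD hN
    have : d0 = 2 * (D * N) := by rw [hd0]; ring
    omega
  have hd0R : (1 : ℝ) ≤ d0 := by exact_mod_cast hd0'
  obtain ⟨D', Kc, ω, hKc, hω0, hω1, hzer⟩ := hZ K (1 / (d0 : ℝ)) (by positivity)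
  set CH : ℝ := CR * (N + C₁) + D * N with hCH
  have hDR : (1 : ℝ) ≤ D := by exact_mod_cast hD
  have hNR : (1 : ℝ) ≤ N := by exact_mod_cast hN
  have hCH0 : 0 ≤ CH := by rw [hCH]; positivity
  refine ⟨D', Kc * CH, by positivity, max (2 / ω) (Kc * CH), by positivity, ?_⟩
  intro q f Q ξ hq hf hfD hf1 hfe hQd hQ hPH hLq hL0 hL1 hL2
  have hqR : (1 : ℝ) ≤ q := by exact_mod_cast hq
  have hNq : 1 ≤ N * q := Nat.mul_pos hN hq
  have hNNq : N ≤ N * q := Nat.le_mul_of_pos_right N hq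
  obtain ⟨r, hr0, hrd0, hrd1, hrd2, hrPH, hrdvd⟩ := hres f Q (N * q) ξ hf hfD hf1 hNq
    (hDN.trans hNNq)
    (fun h => (hQd h).trans (by split_ifs <;> omega))
    (by simpa using hQd 2) (by simpa using hQd 3) hfe hQ
  set d1 : ℕ := D * (N * q) with hd1
  have hd1' : 1 ≤ d1 := Nat.mul_pos hD hNq
  have hd1R : (d1 : ℝ) = D * (N * q) := by rw [hd1]; push_cast; ring
  have hqd1 : (q : ℝ) ≤ d1 := by
    rw [hd1R]
    have : (1 : ℝ) ≤ D * N := one_le_mul_of_one_le_of_one_le hDR hNR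
    nlinarith
  by_cases hlow : ∃ g : MvPolynomial (Fin 2) K, Irreducible g ∧ (∀ i, g.degreeOf i ≤ D') ∧
        eval (pt (ξ 0) (ξ 1)) g = 0 ∧ Real.log (PH g) ≤ Kc * CH
  · exact Or.inl hlow
  · refine Or.inr ?_
    have hnot : ¬ IndGe (fun h : Fin 3 => if h = 2 then d0 else d1) (fun h : Fin 3 => ξ h.val)
        (1 / (d0 : ℝ)) r := by
      intro hind
      apply hlow
      have hH1 : (d1 : ℝ) ≤ CH * q := by
        rw [hd1R, hCH]
        have : 0 ≤ CR * (N + C₁) * q := by positivity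
        nlinarith
      have hH2 : Real.log (PH r) ≤ CH * q := by
        refine hrPH.trans ?_
        have h1 : ((N * q : ℕ) : ℝ) + Real.log (PH f) + Real.log (PH Q) ≤ (N + C₁) * q := by
          push_cast
          nlinarith
        have h2 : CR * (((N * q : ℕ) : ℝ) + Real.log (PH f) + Real.log (PH Q)) ≤
            CR * ((N + C₁) * q) := mul_le_mul_of_nonneg_left h1 (by linarith)
        have h3 : 0 ≤ (D : ℝ) * N * q := by positivity
        rw [hCH]
        nlinarith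
      have hKH : Kc * (CH * q) ≤ max (2 / ω) (Kc * CH) * q := by
        rw [← mul_assoc]
        exact mul_le_mul_of_nonneg_right (le_max_right _ _) (by linarith)
      have hd0ω : (d0 : ℝ) ≤ ω * d1 := by
        have h1 : 2 / ω ≤ q := (le_max_left _ _).trans hLq
        have h2 : 2 ≤ ω * q := by
          rw [div_le_iff₀ hω0] at h1
          linarith
        rw [hd1R, hd0]
        push_cast
        have : 0 ≤ (D : ℝ) * N := by positivity
        nlinarith
      have hlt : Kc * CH * q < q * logHeight₁ (ξ 0) ∧ Kc * CH * q < q * logHeight₁ (ξ 1) := by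
        constructor
        · have := (le_max_right (2 / ω) (Kc * CH)).trans_lt hL0
          nlinarith
        · have := (le_max_right (2 / ω) (Kc * CH)).trans_lt hL1
          nlinarith
      have hp0 : 0 ≤ logHeight₁ (ξ 0) := zero_le_logHeight₁ _
      have hp1 : 0 ≤ logHeight₁ (ξ 1) := zero_le_logHeight₁ _
      have hp2 : 0 ≤ logHeight₁ (ξ 2) := zero_le_logHeight₁ _
      obtain ⟨g, hg1, hg2, hg3, hg4⟩ := hzer d1 d0 ξ (CH * q) 1 r hd1' hd0' hH1 hd0ω
        (by simpa using hd0R)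
        ⟨hr0, one_pos, by
          intro h
          fin_cases h
          · have : (r.degreeOf 0 : ℝ) ≤ (d1 : ℝ) := by exact_mod_cast hrd0
            simpa using this
          · have : (r.degreeOf 1 : ℝ) ≤ (d1 : ℝ) := by exact_mod_cast hrd1
            simpa using this
          · have : (r.degreeOf 2 : ℝ) ≤ (d0 : ℝ) := by exact_mod_cast hrd2
            simpa using this, by simpa using hH2, by simpa using hind⟩
        (by
          have h3 : logHeight₁ (ξ 2) ≤ d0 * logHeight₁ (ξ 2) := le_mul_of_one_le_left hp2 hd0R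
          linarith)
        (by
          have h3 : q * logHeight₁ (ξ 0) ≤ d1 * logHeight₁ (ξ 0) :=
            mul_le_mul_of_nonneg_right hqd1 hp0
          have := hlt.1
          nlinarith)
        (by
          have h3 : q * logHeight₁ (ξ 1) ≤ d1 * logHeight₁ (ξ 1) :=
            mul_le_mul_of_nonneg_right hqd1 hp1
          have := hlt.2
          nlinarith)
      refine ⟨g, hg1, hg2, hg3, ?_⟩
      have h5 : q * Real.log (PH g) ≤ q * (Kc * CH) := by
        have h6 : q * Real.log (PH g) ≤ d1 * Real.log (PH g) :=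
          mul_le_mul_of_nonneg_right hqd1 (log_PH_nonneg' g)
        nlinarith
      exact le_of_mul_le_mul_left h5 (by linarith)
    have hnot2 : ¬ IndGe (fun _ : Fin 2 => d1) (fun h : Fin 2 => ξ h.val) (1 / (d0 : ℝ))
        (aeval (sp3 ξ) r) := fun h => hnot (hI K ξ r d1 d0 (1 / (d0 : ℝ)) hd1' hd0'
          (by rw [one_div_mul_cancel (by positivity)]) h)
    unfold IndGe at hnot2
    push Not at hnot2
    obtain ⟨β, hβ, hβ2⟩ := hnot2
    refine ⟨aeval (sp3 ξ) r, β, hrdvd, by simpa [mem_support_iff] using hβ, ?_⟩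
    have h7 : ((β 0 : ℝ) + β 1) / d1 < 1 / d0 := by
      simpa [Fin.sum_univ_two, add_div] using hβ2
    have hd1p : (0 : ℝ) < d1 := by linarith
    rw [div_lt_div_iff₀ hd1p (by linarith)] at h7
    have h8 : ((β 0 : ℝ) + β 1) < q := by
      rw [hd1R, hd0] at h7
      push_cast at h7
      have h9 : (0 : ℝ) < D * N := by positivity
      have h10 : ((β 0 : ℝ) + β 1) * 2 < q := by
        have : (((β 0 : ℝ) + β 1) * 2) * (D * N) < q * (D * N) := by nlinarith
        exact lt_of_mul_lt_mul_right this h9.le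
      have h11 : (0 : ℝ) ≤ (β 0 : ℝ) + β 1 := by positivity
      linarith
    exact_mod_cast h8

end

end Pool.Agent.Helper11.SG
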