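import Pool.Agent.Helper42.SG.GoalsG
import Pool.Agent.Helper66.SG.Goals
import Pool.Agent.Helper77.SGC.Goals
import Pool.Agent.Helper92.SGE.Goals

/-!
# Project SG, part 2 (theorem `PTWO` of `Pool.Agent.Helper42.SG.GoalsP`): the end of the proof

Paper: `MP_a41896_part2_helper11.md` (team store).  Variables `0, 1` belong to the point `z` (coordinates
`ξ_0, ξ_1`), variables `2, 3` to the point `x_0` (coordinates `ξ_2, ξ_3`), which is never moved: the power series are in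
`K[[τ_0, τ_1]]` (`MvPowerSeries (Fin 2) K`).  All goals are independent (named goals may be hypotheses).
-/

set_option autoImplicit false

open MvPolynomial

namespace Pool.Agent.Helper11.SG

open WeierstrassCurve Height Height.AdmissibleAbsValues
open Pool.Agent.Helper29.BL Pool.Agent.Helper92.Ru Pool.Agent.Helper42.SG
open Pool.Agent.Helper66.SG (sp3 sp4 pt)

noncomputable section

/-- Taylor expansion at `z`; the coordinates of `x_0` are constants. -/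
structure TayZ {K : Type} [Field K] (W : ℕ → Affine K) (ξ ψ : ℕ → K)
    (X Ψ : ℕ → MvPowerSeries (Fin 2) K) : Prop where
  onW : OnW W 1 X Ψ
  eqX : ∀ h : Fin 2, X h.val =
    MvPowerSeries.C (ξ h.val) + MvPowerSeries.C (4 * ψ h.val ^ 2) * MvPowerSeries.X h
  cst : ∀ h : Fin 2, MvPowerSeries.constantCoeff (Ψ h.val) = ψ h.val
  cX : ∀ i < 2, X (2 + i) = MvPowerSeries.C (ξ (2 + i))
  cP : ∀ i < 2, Ψ (2 + i) = MvPowerSeries.C (ψ (2 + i))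

/-- **TAYZ**. From TAY with `n = 0` (for `h = 0, 1`; `Fin (2 * 0 + 2)` is `Fin 2`), constants for `h = 2, 3`:
`X h := C (ξ h)`, `Ψ h := C (ψ h)` for `h ≥ 2` (`h % 2` is the curve). `NPS v r (C k) |k|_v` (FRPS, `NFr.const`),
`|ψ_h|_v ≤ B''_v M_v(ξ_h)^2` because `ψ_h^2 = B(ξ_h)`, `|B(ξ)|_v ≤ B'_v M_v(ξ)^3` (compare EUP, `bf_le` of
`Pool/Agent/Helper12/SGB/ECOEF.lean`); `B` = product of the constants (`B v ≥ 1`), but the radii contain `B v`: enlarging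
`B v` makes the radii smaller, and `NPS v r f T` is monotone in `r` (`rpw r α` is monotone) and in `T`.
Assume TAY, FRPS. -/
def TAYZ : Prop :=
  ∀ (K : Type) [Field K] [NumberField K] (W : ℕ → Affine K),
    ∃ B : AbsoluteValue K ℝ → ℝ, PlC B ∧ ∀ ξ ψ : ℕ → K,
      (∀ h < 4, ψ h ^ 2 = Bf (W (h % 2)) (ξ h)) → ψ 0 ≠ 0 → ψ 1 ≠ 0 →
      ∃ X Ψ : ℕ → MvPowerSeries (Fin 2) K, TayZ W ξ ψ X Ψ ∧
        ∀ (v : AbsoluteValue K ℝ), ∀ h < 4,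
          NPS v (fun i : Fin 2 => 1 / (B v * Mv v (ξ i.val) ^ 2)) (X h) (B v * Mv v (ξ h)) ∧
          NPS v (fun i : Fin 2 => 1 / (B v * Mv v (ξ i.val) ^ 2)) (Ψ h) (B v * Mv v (ξ h) ^ 2)

/-- **QIX2**. If `Q(X(τ)) = f g` for a Taylor expansion at `z`, `Q(X_0, X_1, ξ_2, ξ_3)` divides `p`, and `p` has a non-zero
Taylor coefficient `β` at `(ξ_0, ξ_1)`, then `f` has a non-zero coefficient `α ≤ β`.
PROOF. `p = V * aeval (sp4 ξ) Q`. The algebra homomorphism `φ = aeval (fun i : Fin 2 => X i.val)` from `K[X_0, X_1]` to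
`K[[τ_0, τ_1]]` satisfies `φ (aeval (sp4 ξ) Q) = aeval (fun h : Fin 4 => X h.val) Q = f g` (TayZ.cX), so `φ p = φ V * g * f`. And
`φ p` is the image of `shiftP ξ p` under `t_h ↦ 4 ψ_h² τ_h` (TayZ.eqX), so its coefficient `β` is
`∏ (4 ψ_h²)^(β_h) * coeff β (shiftP ξ p) ≠ 0` (characteristic `0`, `ψ_h ≠ 0`). The coefficient `β` of a product `f * G` is a sum over
`α + γ = β`, so some `f_α ≠ 0` with `α ≤ β`. Compare `QIX` (same computation). -/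
def QIX2 : Prop :=
  ∀ (K : Type) [Field K] [NumberField K] (W : ℕ → Affine K) (ξ ψ : ℕ → K)
    (X Ψ : ℕ → MvPowerSeries (Fin 2) K) (Q : MvPolynomial (Fin 4) K)
    (p : MvPolynomial (Fin 2) K) (f g : MvPowerSeries (Fin 2) K) (β : Fin 2 →₀ ℕ),
    TayZ W ξ ψ X Ψ → ψ 0 ≠ 0 → ψ 1 ≠ 0 →
    aeval (fun h : Fin 4 => X h.val) Q = f * g → aeval (sp4 ξ) Q ∣ p →
    coeff β (shiftP (fun i : Fin 2 => ξ i.val) p) ≠ 0 →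
    ∃ α : Fin 2 →₀ ℕ, α ≤ β ∧ MvPowerSeries.coeff α f ≠ 0

/-- **GLOB2**: the sum over the places, part 2. The same proof as `Pool.Agent.Helper92.SGE.GLOB`
(`HTL` of the same file may be assumed; also `CVAL` if you like).
For every place of `K`: `log |δ| ≤ log (cst v (exp A)) + 4^e log Bt + ∑_(h<2) (M log max(|L_h|, |L'_h|) + 4^e log M_v(ξ_h))
- k0 4^e min(log⁺|ξ_0|, log⁺|ξ_1|) + log M_v(ξ_2) + log M_v(ξ_3) + ∑_i α_i (log B' + 2 log M_v(ξ_i))`. Sum over the places: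
`PS (log |δ|) = 0` (`PS_log`), `PS (log cst v (exp A)) ≤ totalWeight * A`, HTL, `PS_log_Mv`. -/
def GLOB2 : Prop :=
  ∀ (K : Type) [Field K] [NumberField K] (M k0 : ℕ) (Bt B' : AbsoluteValue K ℝ → ℝ),
    PlC Bt → PlC B' → ∃ C : ℝ, 0 ≤ C ∧
    ∀ (e : ℕ) (ξ L L' hw : ℕ → K) (α : Fin 2 →₀ ℕ) (δ : K) (A : ℝ),
      δ ≠ 0 → 0 ≤ A →
      (∀ h < 2, (L h ≠ 0 ∨ L' h ≠ 0) ∧ (L h ≠ 0 → L' h = hw h * L h) ∧
        (L h = 0 → hw h = 0)) →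
      (∀ v : AbsoluteValue K ℝ, (v ∈ archAbsVal (K := K) ∨ v ∈ nonarchAbsVal (K := K)) →
        v δ ≤ cst v (Real.exp A) * Bt v ^ (4 ^ e) *
          (∏ h ∈ Finset.range 2, (max (v (L h)) (v (L' h))) ^ M * Mv v (ξ h) ^ (4 ^ e)) /
          (min (Mv v (ξ 0)) (Mv v (ξ 1))) ^ (k0 * 4 ^ e) *
          (Mv v (ξ 2) * Mv v (ξ 3)) *
          ∏ i : Fin 2, (B' v * Mv v (ξ i.val) ^ 2) ^ (α i)) →
      ((k0 : ℝ) * 4 ^ e) * PS (fun v => min (Real.posLog (v (ξ 0))) (Real.posLog (v (ξ 1)))) ≤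
        C * (4 ^ e + A) +
          ∑ h ∈ Finset.range 2, (M * logHeight₁ (hw h) + (4 : ℝ) ^ e * logHeight₁ (ξ h)) +
          (logHeight₁ (ξ 2) + logHeight₁ (ξ 3)) +
          ∑ i : Fin 2, (α i : ℝ) * (C + 2 * logHeight₁ (ξ i.val))

/-- **NUM2**: the final numbers of part 2 (no number theory). `q = 4^e`, `y = |z|²`, `t = |x_0|²`.
PROOF. Left `≥ 10 q y`. Right: `C q (1 + C₁)`, `M (hw0 + hw1) ≤ M θ² t + 2 M c₀ ≤ 2 M θ² q y + 2 M c₀ ≤ 2 q y + 2 M c₀`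
(`t ≤ 2 q y`), `q (h0 + h1) ≤ q y + 2 c₀ q`, `h2 + h3 ≤ t + 2 c₀ ≤ 2 q y + 2 c₀`, `α_i (C + 2 h_i)` summed:
`≤ (α0 + α1) (C + 2 (y + 2 c₀)) ≤ q (C + 2 y + 4 c₀)` (`h_i ≤ h0 + h1 ≤ y + 2 c₀`). Total `≤ 7 q y + const * q < 10 q y` if `y ≥ K0`
(`const = C (1 + C₁) + 2 M c₀ + 2 c₀ + 2 c₀ + C + 4 c₀`, `K0 > const / 3`, `q ≥ 1`). -/
def NUM2 : Prop :=
  ∀ (M : ℕ) (c₀ C C₁ : ℝ), 0 ≤ c₀ → 0 ≤ C → 0 ≤ C₁ → ∃ K0 : ℝ, 1 ≤ K0 ∧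
    ∀ (k0 e : ℕ) (ε θ y t g h0 h1 h2 h3 w0 w1 a0 a1 A : ℝ), 0 < ε → 10 ≤ ε * k0 →
      M * θ ^ 2 ≤ 1 → K0 ≤ y → t ≤ 2 * 4 ^ e * y → ε * y ≤ g →
      0 ≤ h0 → 0 ≤ h1 → h0 + h1 ≤ y + 2 * c₀ → h2 + h3 ≤ t + 2 * c₀ →
      w0 + w1 ≤ θ ^ 2 * t + 2 * c₀ → 0 ≤ a0 → 0 ≤ a1 → a0 + a1 ≤ 4 ^ e → A ≤ C₁ * 4 ^ e →
      ((k0 : ℝ) * 4 ^ e) * g ≤ C * (4 ^ e + A) + ((M * w0 + 4 ^ e * h0) + (M * w1 + 4 ^ e * h1)) +
        (h2 + h3) + (a0 * (C + 2 * h0) + a1 * (C + 2 * h1)) → False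

/-- **GEO2**: elementary facts on the two points of `PTWO`. Put `y = nrm z`, `t = nrm x₀`, `θ ≤ 1/8`.
(`IsQuad` for `nrm H₁ H₂` on `W₁.Point × W₂.Point`: sums of the two.) `QTR` (of `Helper92/SGE/Goals`):
`(1-θ)² t ≤ 4^e y ≤ (1+θ)² t`, so `t ≤ 2·4^e y`, `4^e y ≤ 2 t`; `K0 y ≤ t` gives `4^e ≥ K0/2`. `gg z ≤ hx z.1, hx z.2` (`PS_mono`, `lam ≤ log⁺`,
`PS_log_Mv`), so all four heights are `≥ ε K0 > c₀`: NDG: the points are not `0`, `ps ≠ 0`. Last: if `2^e • z.1 + x₀.1 = 0` then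
`2^e • z.1 - x₀.1 = - 2 x₀.1` has `H₁ = 4 H₁ x₀.1 ≤ nrm (2^e z - x₀) ≤ θ² t`, but `H₁ x₀.1 ≥ hx x₀.1 - c₀ ≥ ε t - c₀ ≥ ε t / 2`:
contradiction for `θ² < 2 ε`; the same for `.2`. Assume QTR, NDG. -/
def GEO2 : Prop :=
  ∀ (K : Type) [Field K] [NumberField K] [DecidableEq K] (W₁ W₂ : Affine K) [W₁.IsElliptic]
    [W₂.IsElliptic] (H₁ : W₁.Point → ℝ) (H₂ : W₂.Point → ℝ) (c₀ ε L θ₀ : ℝ),
    CanH W₁ H₁ c₀ → CanH W₂ H₂ c₀ → 0 < ε → 0 < θ₀ → ∃ θ K0 : ℝ, 0 < θ ∧ θ ≤ θ₀ ∧ 0 < K0 ∧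
      ∀ (z x₀ : W₁.Point × W₂.Point) (e : ℕ), K0 ≤ nrm H₁ H₂ z →
        K0 * nrm H₁ H₂ z ≤ nrm H₁ H₂ x₀ →
        nrm H₁ H₂ ((2 ^ e) • z - x₀) ≤ θ ^ 2 * nrm H₁ H₂ x₀ →
        ε * nrm H₁ H₂ z ≤ gg z → ε * nrm H₁ H₂ x₀ ≤ gg x₀ →
        (z.1 ≠ 0 ∧ z.2 ≠ 0 ∧ x₀.1 ≠ 0 ∧ x₀.2 ≠ 0) ∧ (ps z.1 ≠ 0 ∧ ps z.2 ≠ 0) ∧
        ((2 ^ e) • z.1 + x₀.1 ≠ 0 ∧ (2 ^ e) • z.2 + x₀.2 ≠ 0) ∧
        (ε * nrm H₁ H₂ z ≤ hx z.1 ∧ ε * nrm H₁ H₂ z ≤ hx z.2) ∧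
        (ε * nrm H₁ H₂ x₀ ≤ hx x₀.1 ∧ ε * nrm H₁ H₂ x₀ ≤ hx x₀.2) ∧
        (nrm H₁ H₂ x₀ ≤ 2 * 4 ^ e * nrm H₁ H₂ z ∧ 4 ^ e * nrm H₁ H₂ z ≤ 2 * nrm H₁ H₂ x₀) ∧
        L ≤ (4 : ℝ) ^ e ∧ L ≤ nrm H₁ H₂ z

/-- **DEG1**: a curve of degree `0` in the second variable through a point of large height. `f` irreducible,
`f.degreeOf 1 = 0`, `f(ξ, η) = 0`: `f` comes from a polynomial in one variable (index `0`), irreducible, with the root `ξ ∈ K`, so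
`f = c (X_0 - ξ)`, and `log PH f = logHeight ![1, -ξ] = logHeight₁ ξ`. Only `≤` is needed: `f = C c * (X 0 - C ξ)`,
the coefficients `c`, `-c ξ` are entries of the coefficient vector. -/
def DEG1 : Prop :=
  ∀ (K : Type) [Field K] [NumberField K] (f : MvPolynomial (Fin 2) K) (ξ η : K),
    Irreducible f → f.degreeOf 1 = 0 → eval (pt ξ η) f = 0 → logHeight₁ ξ ≤ Real.log (PH f)

end

end Pool.Agent.Helper11.SG
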