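import Pool.Agent.Helper11.SG.AsmP4
import Pool.Agent.Helper12.SGB.All
import Pool.Agent.Helper65.SG.All
import Pool.Agent.Helper66.SG.Main
import Pool.Agent.Helper66.SG.IXR
import Pool.Agent.Helper66.SG2.TAYZ
import Pool.Agent.Helper66.SG2.QIX2
import Pool.Agent.Helper77.SGC.Main
import Pool.Agent.Helper35.SGM.LAWCG
import Pool.Agent.Helper35.SG2.NUM2
import Pool.Agent.Helper32.SGM.LOCEG
import Pool.Agent.Helper52.SG2.GLOB2
import Pool.Agent.Helper39.SG2.GEO2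
import Pool.Agent.Helper40.SG2.DEG1
import Pool.Agent.Helper13.SGE.QTR
import Pool.Agent.Helper31.SGE.CVAL
import Pool.Agent.Helper31.SGT.MINC
import Pool.Agent.Helper39.SGE.HTL
import Pool.Agent.Helper40.SGE.MINA
import Pool.Agent.Helper79.SGE.NDG

/-!
# Project SG, part 2: Theorem P2 (unconditional)
-/

set_option autoImplicit false

namespace Pool.Agent.Helper11.SG

open Pool.Agent.Helper42.SG

/-- **Theorem P2**. -/
theorem th_PTWO : PTWO :=
  ptwo_of Pool.Agent.Helper77.SGC.auxc' Pool.Agent.Helper65.SG.th_NQ Pool.Agent.Helper66.SG.resf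
    Pool.Agent.Helper66.SG.t_ixr Pool.Agent.Helper66.SG.zer Pool.Agent.Helper66.SG2.t_TAYZ
    Pool.Agent.Helper66.SG2.t_QIX2 Pool.Agent.Helper40.SGE.mina
    (Pool.Agent.Helper35.SGM.t_LAWCG Pool.Agent.Helper12.SGB.th_RPOL
      Pool.Agent.Helper31.SGT.t_MINC)
    (Pool.Agent.Helper32.SGM.t_LOCEG Pool.Agent.Helper65.SG.th_FRPS)
    Pool.Agent.Helper12.SGB.th_ELAW Pool.Agent.Helper12.SGB.th_ELOC
    Pool.Agent.Helper12.SGB.th_EUP
    (Pool.Agent.Helper52.SG2.t_GLOB2 Pool.Agent.Helper39.SGE.htl)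
    Pool.Agent.Helper31.SGE.cval Pool.Agent.Helper35.SG2.t_NUM2
    (Pool.Agent.Helper39.SG2.t_GEO2 Pool.Agent.Helper13.SGE.qtr
      (Pool.Agent.Helper79.SGE.ndg Pool.Agent.Helper12.SGB.th_EDUP Pool.Agent.Helper12.SGB.th_EUP))
    Pool.Agent.Helper40.SG2.t_DEG1

end Pool.Agent.Helper11.SG
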